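import Pool.Agent.MDY.Targets

/-!
# The moment dictionary, target LHK: the Lindelöf hypothesis and all the moments
-/

set_option autoImplicit false

open MeasureTheory Complex Set Filter Topology
open scoped ENNReal InnerProductSpace ComplexConjugate

namespace Pool.Agent.MDY

open Pool.Agent.NBL

namespace LHK_

/-- the absolute value of zeta on the critical line -/
noncomputable def z (t : ℝ) : ℝ := ‖riemannZeta (1 / 2 + t * I)‖

lemma z_cont : Continuous z := Pool.Agent.Lib.ThickFailure.continuous_zeta_line.norm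

lemma z_nonneg (t : ℝ) : 0 ≤ z t := norm_nonneg _

lemma z_neg (t : ℝ) : z (-t) = z t := norm_zeta_neg t

lemma z_int (k : ℕ) (a b : ℝ) : IntervalIntegrable (fun t => z t ^ k) volume a b :=
  (z_cont.pow k).intervalIntegrable a b

/-- from the pointwise bound to the moments -/
lemma moments (h : Mu 0) (k : ℕ) (hk : 1 ≤ k) : Mom k 1 := by
  intro ε hε
  have hk0 : (0 : ℝ) < 2 * (k : ℝ) := by
    have : (1 : ℝ) ≤ k := by exact_mod_cast hk
    linarith
  obtain ⟨C, hC⟩ := h (ε / (2 * k)) (by positivity)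
  have hC0 : 0 ≤ C := by
    have h1 := hC 0
    simp only [abs_zero, add_zero, Real.one_rpow, mul_one] at h1
    exact (norm_nonneg _).trans h1
  refine ⟨C ^ (2 * k) * (2 : ℝ) ^ ε, fun T hT => ?_⟩
  have h2 : ∀ t ∈ Icc (0 : ℝ) T, z t ^ (2 * k) ≤ C ^ (2 * k) * (2 * T) ^ ε := by
    intro t ht
    have h3 : z t ≤ C * (1 + |t|) ^ (ε / (2 * k)) := by
      have := hC t
      rwa [zero_add] at this
    have h4 : |t| = t := abs_of_nonneg ht.1
    rw [h4] at h3
    have h5 : (1 + t) ^ (ε / (2 * k)) ≤ (2 * T) ^ (ε / (2 * k)) :=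
      Real.rpow_le_rpow (by linarith [ht.1]) (by linarith [ht.2]) (by positivity)
    have h6 : z t ≤ C * (2 * T) ^ (ε / (2 * k)) :=
      h3.trans (mul_le_mul_of_nonneg_left h5 hC0)
    have h7 : z t ^ (2 * k) ≤ (C * (2 * T) ^ (ε / (2 * k))) ^ (2 * k) :=
      pow_le_pow_left₀ (z_nonneg t) h6 _
    rw [mul_pow, ← Real.rpow_natCast ((2 * T) ^ (ε / (2 * k))) (2 * k),
      ← Real.rpow_mul (by linarith)] at h7
    have h8 : ε / (2 * (k : ℝ)) * ((2 * k : ℕ) : ℝ) = ε := by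
      push_cast
      field_simp
    rwa [h8] at h7
  have h9 : ∫ t in (0 : ℝ)..T, z t ^ (2 * k) ≤ ∫ _ in (0 : ℝ)..T, C ^ (2 * k) * (2 * T) ^ ε :=
    intervalIntegral.integral_mono_on (by linarith) (z_int _ _ _)
      (continuous_const.intervalIntegrable _ _) h2
  have h10 : ∫ _ in (0 : ℝ)..T, C ^ (2 * k) * (2 * T) ^ ε = C ^ (2 * k) * 2 ^ ε * T ^ (1 + ε) := by
    rw [intervalIntegral.integral_const, smul_eq_mul, sub_zero,
      Real.mul_rpow (by norm_num) (by linarith), Real.rpow_add (by linarith), Real.rpow_one]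
    ring
  rw [h10] at h9
  exact h9

/-- the integral over a window around `y` -/
lemma window (k : ℕ) (C : ℝ) (hC : ∀ T : ℝ, 1 ≤ T → ∫ t in (0 : ℝ)..T, z t ^ (2 * k) ≤ C * T ^ 2)
    (L y : ℝ) (hL : 1 ≤ L) :
    ∫ t in (-L)..L, z (t + y) ^ (2 * k) ≤ 2 * C * L ^ 2 * (2 + |y|) ^ 2 := by
  have hy : 0 ≤ |y| := abs_nonneg y
  set T : ℝ := L + |y| with hT
  have hC0 : 0 ≤ C := by
    have h1 := hC 1 le_rfl
    have h2 : 0 ≤ ∫ t in (0 : ℝ)..1, z t ^ (2 * k) :=
      intervalIntegral.integral_nonneg (by norm_num) fun t _ => pow_nonneg (z_nonneg t) _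
    linarith
  have h1 : ∫ t in (-L)..L, z (t + y) ^ (2 * k) = ∫ t in (-L + y)..(L + y), z t ^ (2 * k) :=
    intervalIntegral.integral_comp_add_right (fun t => z t ^ (2 * k)) y
  have h2 : ∫ t in (-L + y)..(L + y), z t ^ (2 * k) ≤ ∫ t in (-T)..T, z t ^ (2 * k) :=
    intervalIntegral.integral_mono_interval (by linarith [neg_abs_le y]) (by linarith)
      (by linarith [le_abs_self y])
      (ae_of_all _ fun t => pow_nonneg (z_nonneg t) _) (z_int _ _ _)
  have h3 : ∫ t in (-T)..T, z t ^ (2 * k) = 2 * ∫ t in (0 : ℝ)..T, z t ^ (2 * k) := by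
    rw [← intervalIntegral.integral_add_adjacent_intervals (z_int (2 * k) (-T) 0)
      (z_int (2 * k) 0 T)]
    have h4 : ∫ t in (-T)..0, z t ^ (2 * k) = ∫ t in (0 : ℝ)..T, z t ^ (2 * k) := by
      have h5 := intervalIntegral.integral_comp_neg (a := 0) (b := T) fun t => z t ^ (2 * k)
      simp only [neg_zero] at h5
      rw [← h5]
      simp only [z_neg]
    rw [h4]
    ring
  have h6 := hC T (by linarith)
  have h7 : T ^ 2 ≤ (L * (2 + |y|)) ^ 2 := by
    refine pow_le_pow_left₀ (by linarith) ?_ 2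
    nlinarith
  have h8 : C * T ^ 2 ≤ C * (L * (2 + |y|)) ^ 2 := mul_le_mul_of_nonneg_left h7 hC0
  rw [mul_pow] at h8
  linarith

/-- splitting at a threshold -/
lemma split (k : ℕ) (x lam : ℝ) (hx : 0 ≤ x) (hl : 0 < lam) :
    x ^ 2 ≤ lam + (lam ^ k)⁻¹ * x ^ (2 * (k + 1)) := by
  rcases le_total (x ^ 2) lam with h | h
  · have : 0 ≤ (lam ^ k)⁻¹ * x ^ (2 * (k + 1)) := by positivity
    linarith
  · have h1 : lam ^ k ≤ (x ^ 2) ^ k := pow_le_pow_left₀ hl.le h k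
    have h2 : x ^ (2 * (k + 1)) = (x ^ 2) ^ k * x ^ 2 := by
      rw [← pow_mul, ← pow_add]
      ring_nf
    have h3 : x ^ 2 ≤ (lam ^ k)⁻¹ * x ^ (2 * (k + 1)) := by
      rw [h2, ← mul_assoc]
      have h4 : 1 ≤ (lam ^ k)⁻¹ * (x ^ 2) ^ k := by
        rw [inv_mul_eq_div, le_div_iff₀ (by positivity), one_mul]
        exact h1
      nlinarith [sq_nonneg x]
    linarith

/-- the mean square over a window -/
lemma mean (ε : ℝ) (hε : 0 < ε) (h : ∀ k : ℕ, 1 ≤ k → Mom k 1) (L : ℝ) (hL : 1 ≤ L) :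
    ∃ D : ℝ, 0 ≤ D ∧ ∀ y : ℝ, ∫ t in (-L)..L, z (t + y) ^ 2 ≤ D * (2 + |y|) ^ ε := by
  obtain ⟨k, hk⟩ := exists_nat_ge (2 / ε)
  have hk2 : 2 ≤ ε * k := by
    rw [div_le_iff₀ hε] at hk
    linarith
  obtain ⟨C, hC⟩ := h (k + 1) (by omega) 1 one_pos
  have hC' : ∀ T : ℝ, 1 ≤ T → ∫ t in (0 : ℝ)..T, z t ^ (2 * (k + 1)) ≤ C * T ^ 2 := by
    intro T hT
    have h1 := hC T hT
    have h2 : T ^ ((1 : ℝ) + 1) = T ^ 2 := by
      rw [show (1 : ℝ) + 1 = ((2 : ℕ) : ℝ) by norm_num, Real.rpow_natCast]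
    rw [h2] at h1
    exact h1
  have hC0 : 0 ≤ C := by
    have h1 := hC' 1 le_rfl
    have h2 : 0 ≤ ∫ t in (0 : ℝ)..1, z t ^ (2 * (k + 1)) :=
      intervalIntegral.integral_nonneg (by norm_num) fun t _ => pow_nonneg (z_nonneg t) _
    linarith
  refine ⟨2 * L + 2 * C * L ^ 2, by positivity, fun y => ?_⟩
  have hY : 1 ≤ 2 + |y| := by linarith [abs_nonneg y]
  have hY0 : 0 < 2 + |y| := by linarith
  set lam : ℝ := (2 + |y|) ^ ε with hlam
  have hl1 : 1 ≤ lam := Real.one_le_rpow hY hε.le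
  have hl0 : 0 < lam := by linarith
  have hlk : (2 + |y|) ^ 2 ≤ lam ^ k := by
    rw [hlam, ← Real.rpow_natCast ((2 + |y|) ^ ε) k, ← Real.rpow_mul hY0.le,
      ← Real.rpow_natCast (2 + |y|) 2]
    exact Real.rpow_le_rpow_of_exponent_le hY (by exact_mod_cast hk2)
  have hc : Continuous fun t : ℝ => z (t + y) := z_cont.comp (continuous_id.add continuous_const)
  have h1 : ∫ t in (-L)..L, z (t + y) ^ 2 ≤
      ∫ t in (-L)..L, (lam + (lam ^ k)⁻¹ * z (t + y) ^ (2 * (k + 1))) :=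
    intervalIntegral.integral_mono_on (by linarith) ((hc.pow 2).intervalIntegrable _ _)
      ((continuous_const.add (continuous_const.mul (hc.pow _))).intervalIntegrable _ _)
      fun t _ => split k _ lam (z_nonneg _) hl0
  have h2 : ∫ t in (-L)..L, (lam + (lam ^ k)⁻¹ * z (t + y) ^ (2 * (k + 1))) =
      2 * L * lam + (lam ^ k)⁻¹ * ∫ t in (-L)..L, z (t + y) ^ (2 * (k + 1)) := by
    have i1 : IntervalIntegrable (fun _ : ℝ => lam) volume (-L) L :=
      continuous_const.intervalIntegrable _ _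
    have i2 : IntervalIntegrable (fun t : ℝ => (lam ^ k)⁻¹ * z (t + y) ^ (2 * (k + 1)))
        volume (-L) L := (continuous_const.mul (hc.pow _)).intervalIntegrable _ _
    rw [intervalIntegral.integral_add i1 i2, intervalIntegral.integral_const,
      intervalIntegral.integral_const_mul, smul_eq_mul]
    ring
  have h3 := window (k + 1) C hC' L y hL
  have h4 : (lam ^ k)⁻¹ * ∫ t in (-L)..L, z (t + y) ^ (2 * (k + 1)) ≤ 2 * C * L ^ 2 := by
    have h5 : (lam ^ k)⁻¹ * ∫ t in (-L)..L, z (t + y) ^ (2 * (k + 1)) ≤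
        (lam ^ k)⁻¹ * (2 * C * L ^ 2 * (2 + |y|) ^ 2) :=
      mul_le_mul_of_nonneg_left h3 (by positivity)
    have h6 : (lam ^ k)⁻¹ * (2 + |y|) ^ 2 ≤ 1 := by
      rw [inv_mul_eq_div, div_le_one (by positivity)]
      exact hlk
    have h7 : 0 ≤ 2 * C * L ^ 2 := by positivity
    nlinarith
  have h8 : 0 ≤ 2 * C * L ^ 2 := by positivity
  nlinarith

end LHK_

open LHK_ in
/-- Target LHK. -/
theorem p_LHK (h_PWZ : T_PWZ) : T_LHK := by
  refine ⟨fun h ε hε => ?_, fun h k hk => moments h k hk⟩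
  obtain ⟨C, L, hC1, hL1, hW⟩ := h_PWZ (min ε 1) (lt_min hε one_pos) (min_le_right _ _)
  obtain ⟨D, hD0, hD⟩ := mean ε hε h L hL1
  refine ⟨√(C * (1 + D)) * 2 ^ ε, fun y => ?_⟩
  have hy : 0 ≤ |y| := abs_nonneg y
  have hY : 1 ≤ 2 + |y| := by linarith
  have hY0 : 0 < 2 + |y| := by linarith
  have h1 : z y ^ 2 ≤ C * (2 + |y|) ^ (min ε 1) * (1 + ∫ t in (-L)..L, z (t + y) ^ 2) := hW y
  have h2 : (2 + |y|) ^ (min ε 1) ≤ (2 + |y|) ^ ε :=
    Real.rpow_le_rpow_of_exponent_le hY (min_le_left _ _)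
  have h3 : 1 ≤ (2 + |y|) ^ ε := Real.one_le_rpow hY hε.le
  have h4 : 1 + ∫ t in (-L)..L, z (t + y) ^ 2 ≤ (1 + D) * (2 + |y|) ^ ε := by
    have := hD y
    linarith
  have h5 : z y ^ 2 ≤ (C * (1 + D)) * ((2 + |y|) ^ ε) ^ 2 := by
    refine h1.trans ?_
    have h6 : 0 ≤ ∫ t in (-L)..L, z (t + y) ^ 2 :=
      intervalIntegral.integral_nonneg (by linarith) fun t _ => pow_nonneg (z_nonneg _) _
    have h7 : C * (2 + |y|) ^ (min ε 1) * (1 + ∫ t in (-L)..L, z (t + y) ^ 2) ≤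
        C * (2 + |y|) ^ ε * ((1 + D) * (2 + |y|) ^ ε) :=
      mul_le_mul (mul_le_mul_of_nonneg_left h2 (by linarith)) h4 (by linarith) (by positivity)
    refine h7.trans (le_of_eq ?_)
    ring
  have h8 : z y ≤ √(C * (1 + D)) * (2 + |y|) ^ ε := by
    have h9 : z y ≤ √((C * (1 + D)) * ((2 + |y|) ^ ε) ^ 2) := Real.le_sqrt_of_sq_le h5
    rwa [Real.sqrt_mul (by positivity), Real.sqrt_sq (by positivity)] at h9
  have h10 : (2 + |y|) ^ ε ≤ 2 ^ ε * (1 + |y|) ^ ε := by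
    rw [← Real.mul_rpow (by norm_num) (by linarith)]
    exact Real.rpow_le_rpow hY0.le (by linarith) hε.le
  have h11 : z y ≤ √(C * (1 + D)) * 2 ^ ε * (1 + |y|) ^ ε := by
    refine h8.trans ?_
    rw [mul_assoc]
    exact mul_le_mul_of_nonneg_left h10 (Real.sqrt_nonneg _)
  rw [zero_add]
  exact h11

end Pool.Agent.MDY
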