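import Mathlib
import Pool.Agent.NBL.Final2
import Pool.Agent.Lib.ZetaConv

/-!
# The moment dictionary: targets

`GG N` is the Gram matrix of `n h_n`, `n ≤ N`.  For every `k ≥ 1` and `θ ≥ 1`: the `2k`-th moment
of the zeta function is `O(T^(θ + ε))` iff `tr (GG N)^k = O(N^(θ + ε))`.
-/

set_option autoImplicit false

open MeasureTheory Complex Set Filter Topology
open scoped ENNReal InnerProductSpace ComplexConjugate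

namespace Pool.Agent.MDY

open Pool.Agent.NBL

/-- the Gram matrix of the functions `n h_n`, `n = 1, .., N` -/
noncomputable def GG (N : ℕ) : Matrix (Fin N) (Fin N) ℝ :=
  Matrix.of fun i j => ∫ t in Ioi (0 : ℝ),
    ((((i : ℕ) + 1 : ℕ) : ℝ) * h (i + 1) t) * ((((j : ℕ) + 1 : ℕ) : ℝ) * h (j + 1) t)

/-- moments of the zeta function -/
def Mom (k : ℕ) (θ : ℝ) : Prop :=
  ∀ ε : ℝ, 0 < ε → ∃ C : ℝ, ∀ T : ℝ, 1 ≤ T →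
    ∫ t in (0 : ℝ)..T, ‖riemannZeta (1 / 2 + t * I)‖ ^ (2 * k) ≤ C * T ^ (θ + ε)

/-- traces of powers of the Gram matrix -/
def Trc (k : ℕ) (θ : ℝ) : Prop :=
  ∀ ε : ℝ, 0 < ε → ∃ C : ℝ, ∀ N : ℕ, 1 ≤ N → ((GG N) ^ k).trace ≤ C * (N : ℝ) ^ (θ + ε)

/-! ## identities (proved) -/

lemma fs_id (N : ℕ) (b : ℕ → ℂ) :
    ∫⁻ t : ℝ, ‖Nm N b (1 / 2 + t * I) / (1 / 2 + t * I)‖ₑ ^ 2 =
      ENNReal.ofReal (2 * Real.pi *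
        ∑ n ∈ Finset.Icc 1 N, ‖b n‖ ^ 2 * (1 / n - 1 / ((n : ℝ) + 1))) := by
  have hpi : (0 : ℝ) < 2 * Real.pi := by positivity
  have h1 := Fs_sq N b
  rw [plancherel (adm_Fs N b)] at h1
  have h0 : ∀ t : ℝ, mellin (Fs N b) (1 / 2 + t * I) =
      Nm N b (1 / 2 + t * I) / (1 / 2 + t * I) := fun t =>
    mellin_Fs N b (by simp) (by simp; norm_num)
  simp_rw [h0] at h1
  rw [ENNReal.ofReal_mul hpi.le, ← h1, ← mul_assoc, ← ENNReal.ofReal_mul hpi.le,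
    show 2 * Real.pi * (1 / (2 * Real.pi)) = 1 by field_simp]
  simp

lemma hs_id (N : ℕ) (b : ℕ → ℂ) :
    ∫⁻ t : ℝ, ‖riemannZeta (1 / 2 + t * I)‖ₑ ^ 2 *
        ‖Nm N b (1 / 2 + t * I) / (1 / 2 + t * I)‖ₑ ^ 2 =
      ENNReal.ofReal (2 * Real.pi) * ∫⁻ t in Ioi (0 : ℝ), ‖Hs b (Finset.Icc 1 N) t‖ₑ ^ 2 := by
  have hpi : (0 : ℝ) < 2 * Real.pi := by positivity
  rw [plancherel (adm_Hs b fun n hn => pos_of_mem hn)]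
  simp_rw [mellin_Hs, enorm_neg, enorm_mul, mul_pow]
  rw [← mul_assoc, ← ENNReal.ofReal_mul hpi.le,
    show 2 * Real.pi * (1 / (2 * Real.pi)) = 1 by field_simp]
  simp

lemma hs_real (N : ℕ) (b : ℕ → ℂ) :
    ∫⁻ t in Ioi (0 : ℝ), ‖Hs b (Finset.Icc 1 N) t‖ₑ ^ 2 =
      ENNReal.ofReal (∫ t in Ioi (0 : ℝ), ‖Hs b (Finset.Icc 1 N) t‖ ^ 2) := by
  have hadm : Adm (Hs b (Finset.Icc 1 N)) := adm_Hs b fun n hn => pos_of_mem hn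
  have h1 : Integrable (fun t => ‖Hs b (Finset.Icc 1 N) t‖ ^ 2) (volume.restrict (Ioi 0)) :=
    (memLp_two_iff_integrable_sq_norm hadm.1.aestronglyMeasurable).1 hadm.memLp
  rw [ofReal_integral_eq_lintegral_ofReal h1 (Eventually.of_forall fun t => by positivity)]
  simp_rw [enorm_sq]

/-! ## targets -/

/-- TRP: the spectral theorem, with the traces of all powers.

Proof: as `NBL.spectral` (file NBL/Spec.lean) with `g i t = ((i+1) h_{i+1}(t) : ℂ)` (admissible: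
`NBL.adm_g` in NBL/Full3.lean); `Hs (xs N a) (Icc 1 N) t = ∑ i, a i * g i t` by `NBL.xs_sum`.
The complex Gram matrix `G` there is `(GG N).map ofReal`; the `lam` there are the eigenvalues of
`G` (`Matrix.IsHermitian`), nonnegative because `lam i = ∫ ‖Hs (xs N (v i))‖ ^ 2`
(take `a = v i`).  Trace of a power: diagonalise (`Matrix.IsHermitian.spectral_theorem`, or
`G ^ k` acts on the basis `v i` by `lam i ^ k`, and the trace of a linear map in an orthonormal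
basis is `∑ i, ⟪v i, G ^ k v i⟫`), and `((GG N) ^ k).trace` maps to `(G ^ k).trace` under
`ofReal` (`Matrix.map_pow`, `RingHom.map_matrix_trace` or by hand).  `spectral` can be copied and
extended. -/
def T_TRP : Prop := ∀ N : ℕ,
  ∃ (v : OrthonormalBasis (Fin N) ℂ (EuclideanSpace ℂ (Fin N))) (lam : Fin N → ℝ),
    (∀ i, 0 ≤ lam i) ∧
    (∀ a : EuclideanSpace ℂ (Fin N), ∫ t in Ioi (0 : ℝ), ‖Hs (xs N a) (Finset.Icc 1 N) t‖ ^ 2 =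
      ∑ i, lam i * ‖⟪v i, a⟫_ℂ‖ ^ 2) ∧
    ∀ k : ℕ, ((GG N) ^ k).trace = ∑ i, lam i ^ k

/-- LAY: layer cake.

Proof: `(1 + |t| / N) ^ (-q) = ∫ τ in Ioi |t|, (q / N) (1 + τ / N) ^ (-q - 1)`
(`integral_Ioi_rpow_of_lt` or `integral_Ioi_of_hasDerivAt_of_tendsto`; as a lintegral over
`Ioi 0` of an indicator).  Tonelli (`lintegral_lintegral_swap`):
`LHS = ∫⁻ τ in Ioi 0, ofReal ((q / N) (1 + τ / N) ^ (-q - 1)) * ∫⁻ t in {|t| < τ}, F t`, and the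
inner integral is at most `ofReal (A * (N + τ) ^ p)` (for `τ < N` enlarge to `N`), so
`LHS ≤ ofReal (A * N ^ p * q * ∫ x in Ioi 0, (1 + x) ^ (p - q - 1)) = ofReal (A N^p q/(q-p))`. -/
def T_LAY : Prop := ∀ (N p q A : ℝ), 0 < N → 0 ≤ p → p < q → 0 ≤ A →
  ∀ F : ℝ → ℝ≥0∞, Measurable F →
    (∀ τ : ℝ, N ≤ τ → ∫⁻ t in Icc (-τ) τ, F t ≤ ENNReal.ofReal (A * τ ^ p)) →
    ∫⁻ t, F t * ENNReal.ofReal ((1 + |t| / N) ^ (-q)) ≤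
      ENNReal.ofReal (A * N ^ p * (q / (q - p)))

/-- WMS: the weighted mass of the transform of a step function (use T_LAY as a hypothesis).

Proof: split at `|t| ≤ 2 N`. There the weight is at most `3` and `fs_id` (proved above) gives
`3 * 2 π ∑ ‖b n‖ ^ 2 (1/n - 1/(n+1)) ≤ 6 π ∑ ‖b n‖ ^ 2 / n ^ 2`.  For `|t| > 2 N` the norm of
`1/2 + t I` is at least `|t|` (`NBL.half_norm`), `1 + |t|/N ≤ (3/2) |t|/N`, so the integrand is at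
most `(9/4) N ^ (-2) * (1 + |t|/N) ^ (-(1 + η)) * ‖Nm N b (1/2 + t I)‖ₑ ^ 2`; apply T_LAY with
`p = 1`, `q = 1 + η`, `F = ‖Nm N b ..‖ₑ ^ 2`: its hypothesis from `NBL.Nm_mean` on
`[-2 τ, 2 τ]` (`2 τ ≥ N + 1`), `A = 8 Kmv ∑ ‖b n‖ ^ 2 / n ≤ 8 Kmv N ∑ ‖b n‖ ^ 2 / n ^ 2`. -/
def T_WMS : Prop := ∀ η : ℝ, 0 < η → η ≤ 1 → ∃ C : ℝ, 1 ≤ C ∧ ∀ N : ℕ, 1 ≤ N → ∀ b : ℕ → ℂ,
  ∫⁻ t : ℝ, ENNReal.ofReal ((1 + |t| / N) ^ (1 - η)) *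
      ‖Nm N b (1 / 2 + t * I) / (1 / 2 + t * I)‖ₑ ^ 2 ≤
    ENNReal.ofReal (C * ∑ n ∈ Finset.Icc 1 N, ‖b n‖ ^ 2 / (n : ℝ) ^ 2)

/-- KRB: the size of the kernel on the diagonal.

Proof: by `NBL.un_b1` `kr N t ≤ ∑ 1/n ≤ 1 + log N`, enough for `|t| ≤ N` (the last factor is at
least `1/4`); by `NBL.un_b2` `kr N t ≤ ∑ 4 n / t ^ 2 ≤ 4 N ^ 2 / t ^ 2` for `|t| > N`, where
`1 + |t|/N ≤ 2 |t|/N`. -/
def T_KRB : Prop := ∀ N : ℕ, 1 ≤ N → ∀ t : ℝ,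
  kr N t ≤ 16 * (1 + Real.log N) * (1 + |t| / N) ^ (-2 : ℝ)

/-- HOL: Hölder with a weight.

Proof: Jensen / Hölder for the measure `μ = volume.withDensity (om * m)` of mass `≤ C` and the
function `Z * om⁻¹`: `(∫⁻ g dμ) ^ k ≤ μ(univ) ^ (k-1) * ∫⁻ g ^ k dμ`
(`ENNReal.lintegral_mul_le_Lp_mul_Lq` with `1`, or `eLpNorm_le_eLpNorm_mul_rpow_measure_univ`). -/
def T_HOL : Prop := ∀ (k : ℕ), 1 ≤ k → ∀ (m Z om : ℝ → ℝ≥0∞), Measurable m → Measurable Z →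
  Measurable om → (∀ t, om t ≠ 0) → (∀ t, om t ≠ ⊤) → ∀ C : ℝ≥0∞, C ≠ ⊤ →
    ∫⁻ t, om t * m t ≤ C →
    (∫⁻ t, Z t * m t) ^ k ≤ C ^ (k - 1) * ∫⁻ t, Z t ^ k * (om t)⁻¹ ^ (k - 1) * m t

/-- the test vectors -/
noncomputable def ev (K M : ℕ) (t : ℝ) (n : ℕ) : ℂ :=
  if (K - 1) * M < n ∧ n ≤ K * M then (n : ℂ) ^ (-(1 / 2 : ℂ) + t * I) else 0

/-- KER: the transform of the test vectors is large near their frequency.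

Proof: put `s = 1/2 + u I`, `N = K M`. As in `NBL.un_b1`, `un n s / s = ∫ x in n..n+1, x^(-s-1)`,
and `‖x^(-s-1) - n^(-s-1)‖ ≤ ‖s+1‖ n^(-5/2)` for `x ∈ [n, n+1]`, so
`n * n^(-1/2 + t I) * (un n s / s) = n^(-1 + (t-u) I) + E_n`, `‖E_n‖ ≤ ‖s+1‖ / n^2`.
There are `M` terms, `(K-1) M < n ≤ K M`, `n ≥ N/2`, `‖s+1‖ ≤ 3/2 + N/24 ≤ N/12`: the errors sum to
at most `M (N/12) 4/N^2 = 1/(3K)`.  Main term times `N^(-(t-u) I)`: the terms are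
`n^(-1) exp(i (t-u) log(n/N))`, `|(t-u) log(n/N)| ≤ (K/4) (1/(K-1)) ≤ 1/2`, so the real part of the
sum is at least `cos(1/2) M/N ≥ (7/8)/K` (`Real.one_sub_sq_div_two_le_cos`).  Finally
`7/8 - 1/3 ≥ 1/2`. -/
def T_KER : Prop := ∀ K M : ℕ, 2 ≤ K → 1 ≤ M → 36 ≤ K * M → ∀ t u : ℝ,
  |u| ≤ K * M / 24 → |t - u| ≤ K / 4 →
    1 / (2 * (K : ℝ)) ≤
      ‖Nm (K * M) (fun n => n * ev K M t n) (1 / 2 + u * I) / (1 / 2 + u * I)‖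

/-- MVE: the mean value of the inner product with the test vectors.

Proof: `⟪a, e_t⟫ = ∑ conj (a i) * ev K M t (i+1)`; after `t ↦ -t` (the interval is symmetric) this
is `∑ k ∈ Icc 1 (K M), c k * k^(-(1/2 + t I))` with `c k = conj (a (k-1))` on the block
`(K-1) M < k ≤ K M` and `0` elsewhere; `NBL.mean_value_full` with `T = K M` gives
`Kmv * K M * ∑ ‖c k‖^2 / k ≤ Kmv * K M / ((K-1) M) * ‖a‖^2 ≤ 2 Kmv ‖a‖^2`. -/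
def T_MVE : Prop := ∀ K M : ℕ, 2 ≤ K → 1 ≤ M → ∀ a : EuclideanSpace ℂ (Fin (K * M)),
  ∫⁻ t in Icc (-((K * M : ℕ) : ℝ)) ((K * M : ℕ) : ℝ),
    ‖⟪a, (WithLp.toLp 2 fun i : Fin (K * M) => ev K M t ((i : ℕ) + 1) :
      EuclideanSpace ℂ (Fin (K * M)))⟫_ℂ‖ₑ ^ 2 ≤ ENNReal.ofReal (2 * Kmv * ‖a‖ ^ 2)

/-- PWR: functions of polynomial growth in the half-plane and mean squares on the line.

Proof: `κ' = κ / 16`, `L ≥ 4/κ'` large, `K = L (1 + 2/κ')`, `F z = f (z + y I)`,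
`M₀ = C₀ (2 + 2 K + |y|) + 1`, `P₀ = 1`, `a = 1`.  `NBL.jen` (file NBL/Half.lean) for `F` gives
`x₀ < 1` with
`log ‖F x‖ ≤ (1 - m) log M₀ + (1/π) ∫ t in -L..L, log (max ‖F (t I)‖ 1) P (x+x₀) 0 t + κ' log M₀`,
`m = (1/π) ∫ t in -L..L, P (x+x₀) 0 t ≥ 1 - κ'` (`NBL.IP_ge`).  Multiply by `2`, concavity
(`NBL.jensen_w` in NBL/Point.lean with `w t = max ‖F (t I)‖ 1 ^ 2`, `w₀ = 1`):
`‖F x‖^2 ≤ 2 M₀^(4 κ') (1 + (1/π) ∫ ‖F (t I)‖^2 P (x+x₀) 0 t)`, `P (x+x₀) 0 t ≤ 1/x`, and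
`M₀^(4 κ') ≤ C (2 + |y|)^κ`. (If `f x = 0` nothing to prove.) -/
def T_PWR : Prop := ∀ κ : ℝ, 0 < κ → κ ≤ 1 → ∀ x : ℝ, 0 < x → x ≤ 1 → ∀ C₀ : ℝ, 1 ≤ C₀ →
  ∃ C L : ℝ, 1 ≤ C ∧ 1 ≤ L ∧ ∀ f : ℂ → ℂ, (∀ z : ℂ, 0 ≤ z.re → DifferentiableAt ℂ f z) →
    (∀ z : ℂ, 0 ≤ z.re → ‖f z‖ ≤ C₀ * (2 + ‖z‖)) → ∀ y : ℝ,
      ‖f (x + y * I)‖ ^ 2 ≤
        C * (2 + |y|) ^ κ * (1 + ∫ t in (-L)..L, ‖f ((t + y : ℝ) * I)‖ ^ 2)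

/-- PWZ: the zeta function on the line and its local mean squares (T_PWR as a hypothesis).

Proof: fix `x = min (κ/8) (1/8)`.
(1) T_PWR for `NBL.fz z = ζ₁ (1/2 + z) / (3/2 + z)` (`riemannZeta₁ s = (s - 1) ζ s`; files
NBL/Rare.lean: `fz_diff`, `fz_bound`, `fz_line`) at the abscissa `x`: bounds
`‖ζ (1/2 + x + u I)‖^2 ≤ 4 ‖fz (x + u I)‖^2` (for `|u| ≥ 20`) by the mean square of
`‖fz (i ·)‖ ≤ ‖ζ (1/2 + i ·)‖` on `[u - L, u + L]`.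
(2) T_PWR for `f₂ z = ζ₁ (1/2 - x + z) / (3/2 + z)` (polynomial growth: `Lib.ZetaCrude.
norm_zeta_le_crude`, valid for `Re s ≥ 1/4`; near `s = 1` continuity) at `x`: at `x + y I` it is
`ζ₁ (1/2 + y I) / (3/2 + x + y I)`, comparable with `ζ (1/2 + y I)`.
(3) on the line `‖f₂ (u I)‖ ≤ ‖ζ (1/2 - x + u I)‖ ≤ 3 |u|^x ‖ζ (1/2 + x + u I)‖` for `|u| ≥ 20`:
`Lib.ZetaConv.zeta_left` (for negative `u` by conjugation, `riemannZeta_conj`), and bounded for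
`|u| ≤ 20` (compactness).
(4) combine: a double integral over windows, at most `2 L ∫ t in -2L..2L`; powers of `2 + |u|` are
at most `C (2 + |y|)^..` in the window. -/
def T_PWZ : Prop := ∀ κ : ℝ, 0 < κ → κ ≤ 1 → ∃ C L : ℝ, 1 ≤ C ∧ 1 ≤ L ∧ ∀ y : ℝ,
  ‖riemannZeta (1 / 2 + y * I)‖ ^ 2 ≤
    C * (2 + |y|) ^ κ * (1 + ∫ t in (-L)..L, ‖riemannZeta (1 / 2 + (t + y : ℝ) * I)‖ ^ 2)

/-- JEN: the lower bound for the traces (hypotheses T_TRP, T_KER, T_MVE).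

Proof: `N = K M`, `e_t = toLp (ev K M t (i+1))`, so `xs N e_t n = n * ev K M t n` on `Icc 1 N` and
`‖e_t‖^2 = ∑ 1/n ≤ M / ((K-1) M) ≤ 1`.  By T_TRP `q t := ∫ ‖Hs (xs N e_t)‖^2 = ∑ lam i μ_i t`,
`μ_i t = ‖⟪v i, e_t⟫‖^2`, `∑ μ_i t = ‖e_t‖^2 ≤ 1`.  By `hs_id`, `hs_real` and T_KER
`q t ≥ (1/(2π)) (1/(2K))^2 W t`, `W t` the inner integral, for `|t| ≤ N/48` (there
`|u| ≤ N/48 + K/4 ≤ N/24`).  Jensen: `(∑ lam i μ_i)^k ≤ ∑ lam i^k μ_i` (weights of sum `≤ 1`).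
Integrate over `|t| ≤ N/48` and use T_MVE for `a = v i`:
`c₁^k ∫ W^k ≤ 2 Kmv ∑ lam i^k = 2 Kmv tr (GG N)^k`, `c₁ = (1/(2π)) (1/(2K))^2`. -/
def T_JEN : Prop := ∀ k : ℕ, 1 ≤ k → ∀ K : ℕ, 2 ≤ K → ∃ c : ℝ, 0 < c ∧ ∀ M : ℕ, 36 ≤ M →
  c * ∫ t in (-(K * M / 48 : ℝ))..(K * M / 48 : ℝ),
    (∫ v in (-(K / 4 : ℝ))..(K / 4 : ℝ), ‖riemannZeta (1 / 2 + (v + t : ℝ) * I)‖ ^ 2) ^ k ≤
      ((GG (K * M)) ^ k).trace

/-- UPP: from moments to traces (hypotheses T_TRP, T_LAY, T_WMS, T_KRB, T_HOL).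

Proof: `ε' = min (ε/2) ((k+1-θ)/4)`, `η = (k+1-θ)/(4k)`, `p = θ + ε'`,
`q = 2 + (1-η)(k-1) > p`.  For `b = xs N (v i)`: `∑ ‖b n‖^2/n^2 = ‖v i‖^2 = 1`,
`lam i = ∫ ‖Hs b‖^2 = (1/(2π)) ∫⁻ ‖ζ‖^2 m_i`, `m_i = ‖Nm N b s / s‖^2` (`hs_id`, `hs_real`).
T_HOL with `om = (1+|t|/N)^(1-η)` and T_WMS:
`(2π lam i)^k ≤ C^(k-1) ∫⁻ ‖ζ‖^(2k) (1+|t|/N)^(-(1-η)(k-1)) m_i`.  Sum over `i`: `NBL.bessel_kr`
(with `J = univ`) and T_KRB, `∑ m_i ≤ kr N t ≤ 16 (1+log N) (1+|t|/N)^(-2)`; then T_LAY for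
`F = ‖ζ‖^(2k)` (`∫ over [-τ,τ]` is twice the integral over `[0,τ]`, by conjugation):
`∑ lam i^k ≤ C' (1+log N) N^(θ+ε') ≤ C'' N^(θ+ε)`. -/
def T_UPP : Prop := ∀ (k : ℕ), 1 ≤ k → ∀ θ : ℝ, 0 ≤ θ → θ < k + 1 → Mom k θ → Trc k θ

/-- LOW: from traces to moments (hypotheses T_PWZ, T_JEN).

Proof: choose `κ = ε/(2k)` (at most `1`), `C, L` from T_PWZ, `K ≥ 4 L` integer, `K ≥ 2`.  For
`T ≥ 1` take `M = max 36 ⌈48 T / K⌉`, so `T ≤ K M / 48 ≤ C T`.  `‖ζ (1/2 + t I)‖^(2k) ≤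
(C (2+|t|)^κ (1 + W t))^k ≤ C^k (2+T)^(κ k) 2^k (1 + W t^k)`, `W t` the window integral
(`≤` the one over `[-K/4, K/4]`), and `∫ t in 0..T, W t ^k ≤ (1/c) tr (GG (K M))^k`
`≤ C (K M)^(θ + ε/2)`; the `1` contributes `T ≤ T^θ`. -/
def T_LOW : Prop := ∀ (k : ℕ), 1 ≤ k → ∀ θ : ℝ, 1 ≤ θ → Trc k θ → Mom k θ

/-- TRI: the trivial moment bounds (hypothesis T_PWZ).

Proof: by `NBL.mean_sq_int` the window integral in T_PWZ is at most `C (2+|y|)^(1+κ)`, so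
`‖ζ (1/2 + y I)‖^2 ≤ C (2+|y|)^(1+2κ)`; `‖ζ‖^(2k) ≤ (C (2+T)^(1+2κ))^(k-1) ‖ζ‖^2` and
`mean_sq_int` again. -/
def T_TRI : Prop := ∀ (k : ℕ), 1 ≤ k → Mom k k

/-- LHK: the Lindelöf hypothesis and all the moments (hypothesis T_PWZ).

Proof: (⇐) is a trivial integration (`Mu 0`: `‖ζ (1/2 + t I)‖ ≤ C (1+|t|)^(0+ε)`).
(⇒) by T_PWZ and Hölder on the window, `‖ζ (1/2 + y I)‖^(2k) ≤ C (2+|y|)^(κ k) (1 + ∫ over the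
window of ‖ζ‖^(2k)) ≤ C (2+|y|)^(κ k + 1 + ε)`; take the `2k`-th root, `k` large (negative `y` by
conjugation). -/
def T_LHK : Prop := (∀ k : ℕ, 1 ≤ k → Mom k 1) ↔ Mu 0

end Pool.Agent.MDY
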